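import Pool.Agent.H85.SC.Targets

/-!
# CHR: characterisation of the failure of synthesis (helper35)
-/

open MeasureTheory AddCircle

namespace Pool.Agent.H35.SC

open Pool.Agent.H85.SC Pool.Agent.H87.Synth

noncomputable section

/-- trigonometric polynomials with coefficients constant on the classes -/
def PolyC (r : Setoid ℤ) : Submodule ℂ L1 where
  carrier := {g | ∃ c : ℤ →₀ ℂ, (∀ m n, r m n → c m = c n) ∧ Finsupp.linearCombination ℂ ex c = g}
  add_mem' := by
    rintro f g ⟨c, hc, rfl⟩ ⟨d, hd, rfl⟩
    refine ⟨c + d, fun m n h => ?_, map_add _ _ _⟩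
    rw [Finsupp.add_apply, Finsupp.add_apply, hc m n h, hd m n h]
  zero_mem' := ⟨0, fun _ _ _ => rfl, map_zero _⟩
  smul_mem' := by
    rintro a f ⟨c, hc, rfl⟩
    refine ⟨a • c, fun m n h => ?_, map_smul _ _ _⟩
    rw [Finsupp.smul_apply, Finsupp.smul_apply, hc m n h]

theorem conv_comm' (f g : L1) : conv f g = conv g f := by
  apply ext_coeff
  intro n
  rw [coeff_conv, coeff_conv, mul_comm]

theorem conv_mem_PolyC {r : Setoid ℤ} {f g : L1} (hf : f ∈ PolyC r) (hg : g ∈ PolyC r) :
    conv f g ∈ PolyC r := by
  obtain ⟨c, hc, rfl⟩ := hf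
  obtain ⟨d, hd, rfl⟩ := hg
  refine ⟨Finsupp.onFinset c.support (fun n => c n * d n) (fun n hn => ?_), fun m n h => ?_, ?_⟩
  · rw [Finsupp.mem_support_iff]
    intro h0
    rw [h0, zero_mul] at hn
    exact hn rfl
  · change c m * d m = c n * d n
    rw [hc m n h, hd m n h]
  · apply ext_coeff
    intro n
    rw [coeff_conv, coeff_linComb, coeff_linComb, coeff_linComb]
    rfl

theorem isClosedSubalgebra_closure (r : Setoid ℤ) :
    IsClosedSubalgebra (PolyC r).topologicalClosure := by
  refine ⟨Submodule.isClosed_topologicalClosure _, ?_⟩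
  intro f hf g hg h hh
  rw [isConv_iff] at hh
  subst hh
  have step1 : ∀ h ∈ PolyC r, ∀ f ∈ (PolyC r).topologicalClosure,
      conv f h ∈ (PolyC r).topologicalClosure := by
    intro h hh f hf
    have hcl : IsClosed {g : L1 | convL h g ∈ (PolyC r).topologicalClosure} :=
      (Submodule.isClosed_topologicalClosure (PolyC r)).preimage (convL h).continuous
    have hsub : (PolyC r : Set L1) ⊆ {g : L1 | convL h g ∈ (PolyC r).topologicalClosure} := by
      intro g hg
      exact Submodule.le_topologicalClosure _ (conv_mem_PolyC hg hh)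
    exact closure_minimal hsub hcl hf
  have hcl : IsClosed {g : L1 | convL f g ∈ (PolyC r).topologicalClosure} :=
    (Submodule.isClosed_topologicalClosure (PolyC r)).preimage (convL f).continuous
  have hsub : (PolyC r : Set L1) ⊆ {g : L1 | convL f g ∈ (PolyC r).topologicalClosure} := by
    intro g hg
    change conv g f ∈ (PolyC r).topologicalClosure
    rw [conv_comm']
    exact step1 g hg f hf
  have := closure_minimal hsub hcl hg
  change conv g f ∈ (PolyC r).topologicalClosure at this
  rw [conv_comm']
  exact this

theorem idem_mem_PolyC {r : Setoid ℤ} {e : L1} (he : e ∈ Amax r) (hee : IsConv e e e) :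
    e ∈ PolyC r := by
  have hcoef : ∀ n, coeff e n = 0 ∨ coeff e n = 1 := by
    intro n
    have h1 : coeff e n = coeff e n * coeff e n := by
      conv_lhs => rw [(isConv_iff e e e).1 hee]
      rw [coeff_conv]
    by_cases h0 : coeff e n = 0
    · exact Or.inl h0
    · right
      exact mul_left_cancel₀ h0 (by rw [← h1, mul_one])
  have hTfin : {n | coeff e n = 1}.Finite := by
    by_contra hinf
    obtain ⟨n, hn⟩ := (Set.not_finite.1 hinf).nonempty
    have h0 := coeff_eq_zero_of_infinite e n _ hinf fun m hm => by
      have h1 : coeff e n = 1 := hn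
      have h2 : coeff e m = 1 := hm
      rw [h1, h2]
    have h1 : coeff e n = 1 := hn
    rw [h1] at h0
    exact one_ne_zero h0
  refine ⟨Finsupp.onFinset hTfin.toFinset (fun n => coeff e n) (fun n hn => ?_),
    fun m n h => ?_, ?_⟩
  · rw [Set.Finite.mem_toFinset]
    rcases hcoef n with h0 | h1
    · exact absurd h0 hn
    · exact h1
  · exact he m n h
  · apply ext_coeff
    intro n
    rw [coeff_linComb]
    rfl

theorem chr : T_CHR := by
  classical
  intro r
  constructor
  · intro hns
    refine ⟨fun m n hm hn => ?_, fun h => hns (synthesis_of_approx r h)⟩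
    by_contra hmn
    apply hns
    intro A _ hrel
    exfalso
    apply hmn
    rw [← hrel]
    intro f hf
    have hc : ∀ a b, r a b → coeff f a = coeff f b := fun a b hab => (hrel a b).2 hab f hf
    have h1 : coeff f m = 0 := coeff_eq_zero_of_infinite f m _ hm fun k hk => hc m k hk
    have h2 : coeff f n = 0 := coeff_eq_zero_of_infinite f n _ hn fun k hk => hc n k hk
    change coeff f m = coeff f n
    rw [h1, h2]
  · rintro ⟨hinf, hna⟩ hsyn
    apply hna
    have hrel : ∀ m n, RudinRel (Amax r) m n ↔ r m n := by
      intro m n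
      constructor
      · intro h
        have key : ∀ a b, RudinRel (Amax r) a b → {k | r a k}.Finite → r a b := by
          intro a b hab hfin
          have hS : ∀ k, k ∈ hfin.toFinset ↔ r a k := fun k => by simp
          have h1 := hab _ (eS_mem_Amax hS)
          change coeff _ a = coeff _ b at h1
          rw [coeff_eS, coeff_eS, if_pos ((hS a).2 (r.refl a))] at h1
          by_contra hmn
          rw [if_neg (fun h' => hmn ((hS b).1 h'))] at h1
          exact one_ne_zero h1
        by_cases hm : {k | r m k}.Finite
        · exact key m n h hm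
        by_cases hn : {k | r n k}.Finite
        · exact r.symm (key n m (fun g hg => (h g hg).symm) hn)
        exact hinf m n hm hn
      · intro h g hg
        exact hg m n h
    have hle := hsyn (Amax r) (isClosedSubalgebra_Amax r) hrel _ (isClosedSubalgebra_closure r)
      (fun e he hee => Submodule.le_topologicalClosure _ (idem_mem_PolyC he hee))
    intro f hf _ ε hε
    have hfc : f ∈ closure (PolyC r : Set L1) := hle (show f ∈ Amax r from hf)
    rw [Metric.mem_closure_iff] at hfc
    obtain ⟨p, ⟨c, hc, rfl⟩, hd⟩ := hfc ε hε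
    refine ⟨c, hc, ?_⟩
    rw [dist_eq_norm] at hd
    exact hd

end

end Pool.Agent.H35.SC
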