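import Pool.Agent.H85.SC.Targets

/-!
# ANL: the failure of synthesis is an analytic property (helper35)
-/

open MeasureTheory AddCircle

namespace Pool.Agent.H35.SC

open Pool.Agent.H85.SC Pool.Agent.H87.Synth

noncomputable section

theorem fact_top : Fact ((1 : ENNReal) ≠ ⊤) := ⟨by simp⟩

theorem second_L1 : SecondCountableTopology L1 := by
  haveI := fact_top
  exact inferInstance

/-- the ambient Polish space -/
abbrev XY : Type := (ℤ → ℤ → Bool) × L1

theorem polish_XY : PolishSpace XY := by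
  haveI := second_L1
  have h1 : SecondCountableTopology XY := inferInstance
  have h2 : TopologicalSpace.IsCompletelyMetrizableSpace XY := inferInstance
  exact { h1, h2 with }

/-- rational complex numbers -/
def emb (q : ℚ × ℚ) : ℂ := (q.1 : ℂ) + (q.2 : ℂ) * Complex.I

theorem emb_zero : emb 0 = 0 := by simp [emb]

theorem exists_emb (z : ℂ) (δ : ℝ) (hδ : 0 < δ) : ∃ q : ℚ × ℚ, ‖z - emb q‖ ≤ δ := by
  obtain ⟨a, ha⟩ := exists_rat_near z.re (half_pos hδ)
  obtain ⟨b, hb⟩ := exists_rat_near z.im (half_pos hδ)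
  refine ⟨(a, b), ?_⟩
  have e : z - emb (a, b) = ((z.re - a : ℝ) : ℂ) + ((z.im - b : ℝ) : ℂ) * Complex.I := by
    apply Complex.ext <;> simp [emb]
  rw [e]
  refine (norm_add_le _ _).trans ?_
  rw [norm_mul, Complex.norm_I, mul_one, Complex.norm_real, Complex.norm_real, Real.norm_eq_abs,
    Real.norm_eq_abs]
  linarith

/-- rational trigonometric polynomials -/
def PQ (c : ℤ →₀ ℚ × ℚ) : L1 := ∑ n ∈ c.support, emb (c n) • ex n

theorem exists_round (c : ℤ →₀ ℂ) (ε : ℝ) (hε : 0 < ε) :
    ∃ q : ℤ →₀ ℚ × ℚ, (∀ m n, c m = c n → q m = q n) ∧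
      ‖(∑ n ∈ c.support, c n • ex n) - PQ q‖ ≤ ε := by
  classical
  set K : ℝ := c.support.card + 1 with hK
  have hK0 : 0 < K := by positivity
  have hex : ∀ z : ℂ, ∃ q : ℚ × ℚ, (z = 0 → q = 0) ∧ ‖z - emb q‖ ≤ ε / K := by
    intro z
    by_cases hz : z = 0
    · refine ⟨0, fun _ => rfl, ?_⟩
      rw [hz, emb_zero, sub_zero, norm_zero]
      positivity
    · obtain ⟨q, hq⟩ := exists_emb z (ε / K) (by positivity)
      exact ⟨q, fun h => absurd h hz, hq⟩
  choose R hR0 hR using hex
  refine ⟨Finsupp.onFinset c.support (fun n => R (c n)) (fun n hn => ?_), fun m n h => ?_, ?_⟩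
  · rw [Finsupp.mem_support_iff]
    intro h0
    exact hn (hR0 _ h0)
  · change R (c m) = R (c n)
    rw [h]
  · have e1 : PQ (Finsupp.onFinset c.support (fun n => R (c n)) (fun n hn => by
        rw [Finsupp.mem_support_iff]
        intro h0
        exact hn (hR0 _ h0))) = ∑ n ∈ c.support, emb (R (c n)) • ex n := by
      unfold PQ
      apply Finset.sum_subset
      · exact Finsupp.support_onFinset_subset
      · intro n _ hn
        rw [Finsupp.notMem_support_iff] at hn
        rw [hn, emb_zero, zero_smul]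
    rw [e1, ← Finset.sum_sub_distrib]
    have hterm : ∀ n ∈ c.support, ‖c n • ex n - emb (R (c n)) • ex n‖ ≤ ε / K := by
      intro n _
      rw [← sub_smul, norm_smul, norm_ex, mul_one]
      exact hR _
    refine (norm_sum_le_of_le _ hterm).trans ?_
    rw [Finset.sum_const, nsmul_eq_mul]
    calc (c.support.card : ℝ) * (ε / K) ≤ K * (ε / K) := by
          apply mul_le_mul_of_nonneg_right _ (by positivity)
          rw [hK]; linarith
      _ = ε := by field_simp

/-- the class of `n` is infinite -/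
def BigC (ρ : ℤ → ℤ → Bool) (n : ℤ) : Prop := ∀ F : Finset ℤ, ∃ k, k ∉ F ∧ ρ n k = true

theorem bigC_iff {ρ : ℤ → ℤ → Bool} {r : Setoid ℤ} (h : IsRel ρ r) (n : ℤ) :
    BigC ρ n ↔ {k | r n k}.Infinite := by
  constructor
  · intro hB hfin
    obtain ⟨k, hk, hρ⟩ := hB hfin.toFinset
    apply hk
    rw [Set.Finite.mem_toFinset]
    exact (h n k).1 hρ
  · intro hinf F
    obtain ⟨k, hk, hkF⟩ := hinf.exists_notMem_finset F
    exact ⟨k, hkF, (h n k).2 hk⟩

/-- graphs of equivalence relations -/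
def IsEq (ρ : ℤ → ℤ → Bool) : Prop :=
  (∀ m, ρ m m = true) ∧ (∀ m n, ρ m n = true → ρ n m = true) ∧
    ∀ m n k, ρ m n = true → ρ n k = true → ρ m k = true

/-- the Borel condition -/
def Cond (j : ℕ) (p : XY) : Prop :=
  IsEq p.1 ∧ (∀ m n, BigC p.1 m → BigC p.1 n → p.1 m n = true) ∧
    (∀ m n, p.1 m n = true → coeff p.2 m = coeff p.2 n) ∧
    (∀ n, BigC p.1 n → coeff p.2 n = 0) ∧
    ∀ c : ℤ →₀ ℚ × ℚ, (∀ m n, p.1 m n = true → c m = c n) → 1 / ((j : ℝ) + 1) ≤ ‖p.2 - PQ c‖

theorem set_eq (hC : T_CHR) :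
    {ρ : ℤ → ℤ → Bool | ∃ r : Setoid ℤ, IsRel ρ r ∧ ¬ HasSynthesis r} =
      Prod.fst '' (⋃ j : ℕ, {p : XY | Cond j p}) := by
  ext ρ
  simp only [Set.mem_ofPred_eq, Set.mem_image, Set.mem_iUnion]
  constructor
  · rintro ⟨r, hr, hns⟩
    obtain ⟨hinf, hna⟩ := (hC r).1 hns
    have hna' : ∃ f : L1, (∀ m n, r m n → fourierCoeff (f : Circ → ℂ) m =
          fourierCoeff (f : Circ → ℂ) n) ∧
        (∀ n, {m | r n m}.Infinite → fourierCoeff (f : Circ → ℂ) n = 0) ∧
        ∃ ε : ℝ, 0 < ε ∧ ∀ c : ℤ →₀ ℂ, (∀ m n, r m n → c m = c n) →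
          ε ≤ ‖f - ∑ n ∈ c.support, c n • (fourierLp 1 n : L1)‖ := by
      by_contra hcon
      apply hna
      intro f hf hf0 ε hε
      by_contra hc
      apply hcon
      refine ⟨f, hf, hf0, ε, hε, fun c hcc => ?_⟩
      by_contra hlt
      exact hc ⟨c, hcc, not_le.1 hlt⟩
    obtain ⟨f, hf, hf0, ε, hε, hfc⟩ := hna'
    obtain ⟨j, hj⟩ := exists_nat_one_div_lt hε
    refine ⟨(ρ, f), ⟨j, ?_, ?_, ?_, ?_, ?_⟩, rfl⟩
    · refine ⟨fun m => (hr m m).2 (r.refl m), fun m n h => (hr n m).2 (r.symm ((hr m n).1 h)),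
        fun m n k h1 h2 => (hr m k).2 (r.trans ((hr m n).1 h1) ((hr n k).1 h2))⟩
    · intro m n hm hn
      exact (hr m n).2 (hinf m n ((bigC_iff hr m).1 hm) ((bigC_iff hr n).1 hn))
    · intro m n h
      exact hf m n ((hr m n).1 h)
    · intro n hn
      exact hf0 n ((bigC_iff hr n).1 hn)
    · intro c hc
      refine hj.le.trans ?_
      classical
      let d : ℤ →₀ ℂ := c.mapRange emb emb_zero
      have hd := hfc d (fun m n h => by
        change emb (c m) = emb (c n)
        rw [hc m n ((hr m n).2 h)])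
      have e1 : ∑ n ∈ d.support, d n • (fourierLp 1 n : L1) = PQ c := by
        unfold PQ
        apply Finset.sum_subset
        · exact Finsupp.support_mapRange
        · intro n _ hn
          rw [Finsupp.notMem_support_iff] at hn
          rw [hn, zero_smul]
      rw [e1] at hd
      exact hd
  · rintro ⟨⟨ρ', f⟩, ⟨j, hE, hI, hf, hf0, hc⟩, rfl⟩
    simp only at hE hI hf hf0 hc
    let r : Setoid ℤ :=
      { r := fun m n => ρ' m n = true
        iseqv := ⟨hE.1, fun h => hE.2.1 _ _ h, fun h1 h2 => hE.2.2 _ _ _ h1 h2⟩ }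
    have hr : IsRel ρ' r := fun m n => Iff.rfl
    refine ⟨r, hr, (hC r).2 ⟨?_, ?_⟩⟩
    · intro m n hm hn
      exact hI m n ((bigC_iff hr m).2 hm) ((bigC_iff hr n).2 hn)
    · intro hA
      have hj : (0 : ℝ) < 1 / ((j : ℝ) + 1) := by positivity
      obtain ⟨c, hcc, hlt⟩ := hA f (fun m n h => hf m n h)
        (fun n hn => hf0 n ((bigC_iff hr n).2 hn)) (1 / ((j : ℝ) + 1) / 2) (half_pos hj)
      obtain ⟨q, hq, hqe⟩ := exists_round c (1 / ((j : ℝ) + 1) / 2) (half_pos hj)
      have h1 := hc q (fun m n h => hq m n (hcc m n h))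
      have h2 : f - PQ q = (f - ∑ n ∈ c.support, c n • ex n) +
          ((∑ n ∈ c.support, c n • ex n) - PQ q) := by abel
      have hlt' : ‖f - ∑ n ∈ c.support, c n • ex n‖ < 1 / ((j : ℝ) + 1) / 2 := hlt
      have h3 := norm_add_le (f - ∑ n ∈ c.support, c n • ex n)
        ((∑ n ∈ c.support, c n • ex n) - PQ q)
      rw [← h2] at h3
      linarith

theorem cont_coord (m n : ℤ) : Continuous (fun p : XY => p.1 m n) :=
  (continuous_apply n).comp ((continuous_apply m).comp continuous_fst)

theorem anl (hC : T_CHR) : T_ANL := by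
  rw [T_ANL, set_eq hC]
  haveI := polish_XY
  letI : MeasurableSpace XY := borel XY
  haveI : BorelSpace XY := ⟨rfl⟩
  apply AnalyticSet.image_of_continuous _ continuous_fst
  apply MeasurableSet.analyticSet
  refine MeasurableSet.iUnion fun j => ?_
  -- basic sets
  have hco : ∀ m n, MeasurableSet {p : XY | p.1 m n = true} := by
    intro m n
    have : IsClosed {p : XY | p.1 m n = true} := isClosed_eq (cont_coord m n) continuous_const
    exact this.measurableSet
  have hbig : ∀ n, MeasurableSet {p : XY | BigC p.1 n} := by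
    intro n
    have e : {p : XY | BigC p.1 n} = ⋂ F : Finset ℤ, ⋃ k : ℤ, ⋃ _ : k ∉ F,
        {p : XY | p.1 n k = true} := by
      ext p
      simp only [BigC, Set.mem_ofPred_eq, Set.mem_iInter, Set.mem_iUnion, exists_prop]
    rw [e]
    exact MeasurableSet.iInter fun F => MeasurableSet.iUnion fun k => MeasurableSet.iUnion
      fun _ => hco n k
  have himp : ∀ (A B : XY → Prop), MeasurableSet {p | A p} → MeasurableSet {p | B p} →
      MeasurableSet {p | A p → B p} := by
    intro A B hA hB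
    have e : {p | A p → B p} = {p | A p}ᶜ ∪ {p | B p} := by
      ext p
      simp only [Set.mem_ofPred_eq, Set.mem_union, Set.mem_compl_iff]
      tauto
    rw [e]
    exact hA.compl.union hB
  have hall : ∀ {ι : Type} [Countable ι] (A : ι → XY → Prop),
      (∀ i, MeasurableSet {p | A i p}) → MeasurableSet {p | ∀ i, A i p} := by
    intro ι _ A hA
    have e : {p | ∀ i, A i p} = ⋂ i, {p | A i p} := by
      ext p
      simp only [Set.mem_ofPred_eq, Set.mem_iInter]
    rw [e]
    exact MeasurableSet.iInter hA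
  have hcoef : ∀ m n, MeasurableSet {p : XY | coeff p.2 m = coeff p.2 n} := by
    intro m n
    have : IsClosed {p : XY | coeffL m p.2 = coeffL n p.2} :=
      isClosed_eq ((coeffL m).continuous.comp continuous_snd)
        ((coeffL n).continuous.comp continuous_snd)
    exact this.measurableSet
  have hcoef0 : ∀ n, MeasurableSet {p : XY | coeff p.2 n = 0} := by
    intro n
    have : IsClosed {p : XY | coeffL n p.2 = 0} :=
      isClosed_eq ((coeffL n).continuous.comp continuous_snd) continuous_const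
    exact this.measurableSet
  have hnorm : ∀ c : ℤ →₀ ℚ × ℚ, MeasurableSet {p : XY | 1 / ((j : ℝ) + 1) ≤ ‖p.2 - PQ c‖} := by
    intro c
    have : IsClosed {p : XY | 1 / ((j : ℝ) + 1) ≤ ‖p.2 - PQ c‖} :=
      isClosed_le continuous_const (continuous_snd.sub continuous_const).norm
    exact this.measurableSet
  have hE : MeasurableSet {p : XY | IsEq p.1} := by
    have h1 := hall (fun m p => p.1 m m = true) (fun m => hco m m)
    have h2 := hall (fun m p => ∀ n, p.1 m n = true → p.1 n m = true)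
      (fun m => hall _ fun n => himp _ _ (hco m n) (hco n m))
    have h3 := hall (fun m p => ∀ n k, p.1 m n = true → p.1 n k = true → p.1 m k = true)
      (fun m => hall _ fun n => hall _ fun k => himp _ _ (hco m n) (himp _ _ (hco n k) (hco m k)))
    exact (h1.inter (h2.inter h3))
  have hI : MeasurableSet {p : XY | ∀ m n, BigC p.1 m → BigC p.1 n → p.1 m n = true} :=
    hall _ fun m => hall _ fun n => himp _ _ (hbig m) (himp _ _ (hbig n) (hco m n))
  have h3 : MeasurableSet {p : XY | ∀ m n, p.1 m n = true → coeff p.2 m = coeff p.2 n} :=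
    hall _ fun m => hall _ fun n => himp _ _ (hco m n) (hcoef m n)
  have h4 : MeasurableSet {p : XY | ∀ n, BigC p.1 n → coeff p.2 n = 0} :=
    hall _ fun n => himp _ _ (hbig n) (hcoef0 n)
  have h5 : MeasurableSet {p : XY | ∀ c : ℤ →₀ ℚ × ℚ, (∀ m n, p.1 m n = true → c m = c n) →
      1 / ((j : ℝ) + 1) ≤ ‖p.2 - PQ c‖} :=
    hall _ fun c => himp _ _ (hall _ fun m => hall _ fun n =>
      himp _ _ (hco m n) (MeasurableSet.const _)) (hnorm c)
  exact hE.inter (hI.inter (h3.inter (h4.inter h5)))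

end

end Pool.Agent.H35.SC
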