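import Pool.Agent.H85.SC.Targets

/-!
# COD: coding of trees of lists (helper35)
-/

namespace Pool.Agent.H35.SC

open Pool.Agent.H85.SC Pool.Agent.H72

theorem dec_zero : dec 0 = [] := by
  rw [dec]; simp

theorem dec_add {n a : ℕ} (h : n < 2 ^ a) : dec (n + 2 ^ a) = dec n ++ [a - Nat.size n] := by
  have h0 : n + 2 ^ a ≠ 0 := by positivity
  have hl : Nat.log 2 (n + 2 ^ a) = a := by
    apply Nat.log_eq_of_pow_le_of_lt_pow
    · omega
    · rw [pow_succ]; omega
  rw [dec, dif_neg h0]
  simp only [hl, Nat.add_sub_cancel]

theorem seg_take {β : ℕ → ℕ} {j k : ℕ} (h : j ≤ k) : (seg β k).take j = seg β j := by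
  unfold seg
  rw [← List.map_take, List.take_range, min_eq_left h]

theorem cod : T_COD := by
  intro T
  refine ⟨⟨Or.inl rfl, ?_⟩, ?_, ?_⟩
  · intro n a hn hmem
    by_cases hn0 : n = 0
    · exact Or.inl hn0
    rcases hmem with h | h
    · exact absurd h (by positivity)
    right
    intro j hj
    have h1 := h j (by rw [dec_add hn, List.length_append]; omega)
    rw [dec_add hn, List.take_append_of_le_length hj] at h1
    exact h1
  · rintro ⟨v, hv0, hvS, hv⟩
    choose a ha hva using hv
    refine ⟨fun k => a k - Nat.size (v k), ?_⟩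
    have hdec : ∀ k, dec (v k) = seg (fun k => a k - Nat.size (v k)) k := by
      intro k
      induction k with
      | zero => rw [hv0, dec_zero, seg_zero]
      | succ k ih => rw [hva, dec_add (ha k), ih, seg_succ]
    intro n
    rcases hvS (n + 1) with h | h
    · rw [hva] at h
      exact absurd h (by positivity)
    · have h1 := h n (by rw [hdec, seg_length]; omega)
      rw [hdec, seg_take (Nat.le_succ n)] at h1
      exact h1
  · rintro ⟨β, hβ⟩
    let v : ℕ → ℕ := fun k => Nat.rec 0 (fun j x => x + 2 ^ (Nat.size x + β j)) k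
    have hvs : ∀ k, v (k + 1) = v k + 2 ^ (Nat.size (v k) + β k) := fun k => rfl
    have hlt : ∀ k, v k < 2 ^ (Nat.size (v k) + β k) := by
      intro k
      exact lt_of_lt_of_le (Nat.lt_size_self _) (Nat.pow_le_pow_right (by norm_num) (by omega))
    have hdec : ∀ k, dec (v k) = seg β k := by
      intro k
      induction k with
      | zero => exact dec_zero
      | succ k ih =>
        rw [hvs, dec_add (hlt k), ih, seg_succ]
        simp
    refine ⟨v, rfl, ?_, fun k => ⟨_, hlt k, hvs k⟩⟩
    intro k
    right
    intro j hj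
    rw [hdec, seg_length] at hj
    rw [hdec, seg_take hj]
    exact hβ j

end Pool.Agent.H35.SC
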